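import Mathlib

/-!
The combinatorial heart of the proof: from two sequences one extracts one subsequence and one
convex combination that works for a whole convex set of parameters.
-/

namespace Pool.Agent.MP_b3c6e2_an.Diag

open Set Filter Topology

/-- Stabilisation: a monotone bounded function on infinite subsets of `ℕ` is constant below some
infinite set. -/
lemma stabilise (σ : Set ℕ → ℝ) (h0 : ∀ M, 0 ≤ σ M)
    (hmono : ∀ M M' : Set ℕ, M.Infinite → (M \ M').Finite → σ M ≤ σ M') :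
    ∃ M₀ : Set ℕ, M₀.Infinite ∧ ∀ M : Set ℕ, M.Infinite → M ⊆ M₀ → σ M₀ ≤ σ M := by
  classical
  -- one step
  have step : ∀ (k : ℕ) (N : {N : Set ℕ // N.Infinite}), ∃ N' : {N : Set ℕ // N.Infinite},
      N'.1 ⊆ N.1 ∧ ∀ M : Set ℕ, M.Infinite → M ⊆ N'.1 → σ N'.1 ≤ σ M + 1 / ((k : ℝ) + 1) := by
    intro k N
    by_contra hcon
    push Not at hcon
    -- build a decreasing chain whose `σ` drops by `1/(k+1)` each time
    have hcon' : ∀ N' : {N' : {N : Set ℕ // N.Infinite} // N'.1 ⊆ N.1},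
        ∃ M : {N' : {N : Set ℕ // N.Infinite} // N'.1 ⊆ N.1},
          σ M.1.1 + 1 / ((k : ℝ) + 1) < σ N'.1.1 := by
      intro N'
      obtain ⟨M, hM, hMN, hlt⟩ := hcon N'.1 N'.2
      exact ⟨⟨⟨M, hM⟩, hMN.trans N'.2⟩, hlt⟩
    choose f hf using hcon'
    let s : ℕ → {N' : {N : Set ℕ // N.Infinite} // N'.1 ⊆ N.1} :=
      fun n => f^[n] ⟨N, Subset.rfl⟩
    have hs : ∀ n, σ (s n).1.1 + n * (1 / ((k : ℝ) + 1)) ≤ σ N.1 := by
      intro n
      induction n with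
      | zero => simp [s]
      | succ n ih =>
        have h1 := hf (s n)
        have h2 : s (n + 1) = f (s n) := by
          simp only [s, Function.iterate_succ_apply']
        rw [h2]
        push_cast
        linarith
    obtain ⟨n, hn⟩ := exists_nat_gt (σ N.1 * ((k : ℝ) + 1))
    have h3 := hs n
    have h4 := h0 (s n).1.1
    have h5 : (0 : ℝ) < (k : ℝ) + 1 := by positivity
    have h6 : σ N.1 < n * (1 / ((k : ℝ) + 1)) := by
      rw [mul_one_div, lt_div_iff₀ h5]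
      exact hn
    linarith
  choose nxt hnxt_sub hnxt using step
  let N : ℕ → {N : Set ℕ // N.Infinite} := fun n => Nat.rec ⟨univ, infinite_univ⟩ nxt n
  have hN : ∀ k, N (k + 1) = nxt k (N k) := fun k => rfl
  have hanti : ∀ k l, k ≤ l → (N l).1 ⊆ (N k).1 := by
    intro k l hkl
    induction hkl with
    | refl => exact Subset.rfl
    | step _ ih => exact (hnxt_sub _ _).trans ih
  -- diagonal sequence
  have hpick : ∀ (k b : ℕ), ∃ m ∈ (N k).1, b < m := fun k b => (N k).2.exists_gt b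
  choose pick hpick_mem hpick_gt using hpick
  let m : ℕ → ℕ := fun n => Nat.rec (pick 0 0) (fun k prev => pick (k + 1) prev) n
  have hm_mem : ∀ k, m k ∈ (N k).1 := by
    intro k
    cases k with
    | zero => exact hpick_mem 0 0
    | succ k => exact hpick_mem (k + 1) (m k)
  have hm_mono : StrictMono m := strictMono_nat_of_lt_succ fun k => hpick_gt (k + 1) (m k)
  refine ⟨range m, infinite_range_of_injective hm_mono.injective, fun M hM hMsub => ?_⟩
  have hfin : ∀ k, (range m \ (N k).1).Finite := by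
    intro k
    refine (Set.finite_lt_nat k |>.image m).subset ?_
    rintro _ ⟨⟨i, rfl⟩, hi⟩
    refine ⟨i, ?_, rfl⟩
    by_contra hik
    have hik' : k ≤ i := not_lt.1 hik
    exact hi (hanti k i hik' (hm_mem i))
  refine le_of_forall_pos_le_add fun ε hε => ?_
  obtain ⟨k, hk⟩ := exists_nat_one_div_lt hε
  have h1 : σ (range m) ≤ σ (N (k + 1)).1 :=
    hmono _ _ (infinite_range_of_injective hm_mono.injective) (hfin (k + 1))
  have hMk : (M ∩ (N (k + 1)).1).Infinite := by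
    have hd : (M \ (N (k + 1)).1).Finite := (hfin (k + 1)).subset (sdiff_subset_sdiff_left hMsub)
    by_contra hcon
    rw [Set.not_infinite] at hcon
    apply hM
    have : M = (M ∩ (N (k + 1)).1) ∪ (M \ (N (k + 1)).1) := (inter_union_sdiff _ _).symm
    rw [this]
    exact hcon.union hd
  have h2 : σ (N (k + 1)).1 ≤ σ (M ∩ (N (k + 1)).1) + 1 / ((k : ℝ) + 1) := by
    have := hnxt k (N k) (M ∩ (N (k + 1)).1) hMk
    rw [hN] at *
    exact this inter_subset_right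
  have h3 : σ (M ∩ (N (k + 1)).1) ≤ σ M :=
    hmono _ _ hMk (by
      have : (M ∩ (N (k + 1)).1) \ M = ∅ := by
        rw [sdiff_eq_empty]; exact inter_subset_left
      rw [this]; exact finite_empty)
  linarith

lemma exists_lim (U : Ultrafilter ℕ) (f : ℕ → ℝ) (R : ℝ) (hf : ∀ n, |f n| ≤ R) :
    ∃ l, Tendsto f U (𝓝 l) := by
  have h := (isCompact_Icc (a := -R) (b := R)).ultrafilter_le_nhds (U.map f) (by
    rw [Ultrafilter.coe_map, le_principal_iff, mem_map]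
    exact Filter.univ_mem' fun n => abs_le.1 (hf n))
  obtain ⟨l, -, hl⟩ := h
  exact ⟨l, hl⟩

variable {V : Type*} [AddCommGroup V] [Module ℝ V]

/-- The set of good convex parameters for an ultrafilter. -/
def Lam (C : Set V) (a b : V → ℕ → ℝ) (c : ℝ) (U : Ultrafilter ℕ) : Set ℝ :=
  {t | t ∈ Icc (0 : ℝ) 1 ∧ ∀ ξ ∈ C, ∀ ε : ℝ, 0 < ε →
    ∀ᶠ n in (U : Filter ℕ), t * a ξ n + (1 - t) * b ξ n ≤ -c + ε}

lemma Lam_nonempty (C : Set V) (hC : Convex ℝ C) (a b : V → ℕ → ℝ) (c : ℝ)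
    (ha : ∀ ξ ∈ C, ∀ ζ ∈ C, ∀ s t : ℝ, 0 ≤ s → 0 ≤ t → s + t = 1 →
      ∀ n, a (s • ξ + t • ζ) n = s * a ξ n + t * a ζ n)
    (hb : ∀ ξ ∈ C, ∀ ζ ∈ C, ∀ s t : ℝ, 0 ≤ s → 0 ≤ t → s + t = 1 →
      ∀ n, b (s • ξ + t • ζ) n = s * b ξ n + t * b ζ n)
    (hab : ∀ ξ ∈ C, ∃ R, ∀ n, |a ξ n| ≤ R ∧ |b ξ n| ≤ R)
    (h : ∀ ξ ∈ C, (∀ᶠ n in atTop, a ξ n ≤ -c) ∨ (∀ᶠ n in atTop, b ξ n ≤ -c))
    (U : Ultrafilter ℕ) (hU : (U : Filter ℕ) ≤ atTop) : (Lam C a b c U).Nonempty := by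
  rcases C.eq_empty_or_nonempty with rfl | ⟨ξ₀, hξ₀⟩
  · exact ⟨0, by simp, by simp⟩
  set D : Set (ℝ × ℝ) := {p | ∃ ξ ∈ C, Tendsto (a ξ) U (𝓝 p.1) ∧ Tendsto (b ξ) U (𝓝 p.2)} with hD
  set P : Set (ℝ × ℝ) := {p | -c < p.1 ∧ -c < p.2} with hP
  have hPopen : IsOpen P :=
    (isOpen_lt continuous_const continuous_fst).inter (isOpen_lt continuous_const continuous_snd)
  have hPconv : Convex ℝ P := by
    intro p hp q hq s t hs ht hst
    constructor
    · have h1 := hp.1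
      have h2 := hq.1
      change -c < s * p.1 + t * q.1
      have : -c = s * (-c) + t * (-c) := by rw [← add_mul, hst, one_mul]
      rcases hs.lt_or_eq with hs | hs
      · nlinarith
      · subst hs
        have : t = 1 := by linarith
        subst this
        linarith
    · have h1 := hp.2
      have h2 := hq.2
      change -c < s * p.2 + t * q.2
      have : -c = s * (-c) + t * (-c) := by rw [← add_mul, hst, one_mul]
      rcases hs.lt_or_eq with hs | hs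
      · nlinarith
      · subst hs
        have : t = 1 := by linarith
        subst this
        linarith
  have hDconv : Convex ℝ D := by
    rintro p ⟨ξ, hξ, hp1, hp2⟩ q ⟨ζ, hζ, hq1, hq2⟩ s t hs ht hst
    refine ⟨s • ξ + t • ζ, hC hξ hζ hs ht hst, ?_, ?_⟩
    · have h1 := (hp1.const_mul s).add (hq1.const_mul t)
      refine h1.congr fun n => ?_
      rw [ha ξ hξ ζ hζ s t hs ht hst n]
    · have h1 := (hp2.const_mul s).add (hq2.const_mul t)
      refine h1.congr fun n => ?_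
      rw [hb ξ hξ ζ hζ s t hs ht hst n]
  have hdisj : Disjoint P D := by
    rw [Set.disjoint_left]
    rintro p ⟨hp1, hp2⟩ ⟨ξ, hξ, h1, h2⟩
    rcases h ξ hξ with h' | h'
    · exact absurd (le_of_tendsto h1 (hU h')) (not_le.2 hp1)
    · exact absurd (le_of_tendsto h2 (hU h')) (not_le.2 hp2)
  obtain ⟨f, u, hfP, hfD⟩ := geometric_hahn_banach_open hPconv hPopen hDconv hdisj
  set f₁ := f (1, 0) with hf₁
  set f₂ := f (0, 1) with hf₂
  have hf : ∀ x y : ℝ, f (x, y) = x * f₁ + y * f₂ := by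
    intro x y
    have : ((x, y) : ℝ × ℝ) = x • (1, 0) + y • (0, 1) := by simp
    rw [this, map_add, map_smul, map_smul]
    simp [hf₁, hf₂]
  -- signs
  have hf₁' : f₁ ≤ 0 := by
    by_contra hcon
    push Not at hcon
    have h1 := hfP (-c + 1 + |u - f (-c + 1, -c + 1)| / f₁, -c + 1) ⟨by
      have : 0 ≤ |u - f (-c + 1, -c + 1)| / f₁ := by positivity
      change -c < -c + 1 + |u - f (-c + 1, -c + 1)| / f₁
      linarith, by change -c < -c + 1; linarith⟩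
    rw [hf] at h1
    have h2 := le_abs_self (u - f (-c + 1, -c + 1))
    rw [hf] at h1 h2
    have h3 : |u - ((-c + 1) * f₁ + (-c + 1) * f₂)| / f₁ * f₁ =
        |u - ((-c + 1) * f₁ + (-c + 1) * f₂)| := div_mul_cancel₀ _ hcon.ne'
    rw [add_mul, h3] at h1
    linarith
  have hf₂' : f₂ ≤ 0 := by
    by_contra hcon
    push Not at hcon
    have h1 := hfP (-c + 1, -c + 1 + |u - f (-c + 1, -c + 1)| / f₂) ⟨by
      change -c < -c + 1; linarith, by
      have : 0 ≤ |u - f (-c + 1, -c + 1)| / f₂ := by positivity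
      change -c < -c + 1 + |u - f (-c + 1, -c + 1)| / f₂
      linarith⟩
    rw [hf] at h1
    have h2 := le_abs_self (u - f (-c + 1, -c + 1))
    rw [hf] at h1 h2
    have h3 : |u - ((-c + 1) * f₁ + (-c + 1) * f₂)| / f₂ * f₂ =
        |u - ((-c + 1) * f₁ + (-c + 1) * f₂)| := div_mul_cancel₀ _ hcon.ne'
    rw [add_mul (-c + 1) _ f₂, h3] at h1
    linarith
  have hu : -c * (f₁ + f₂) ≤ u := by
    refine le_of_forall_pos_le_add fun δ hδ => ?_
    set w := -(f₁ + f₂) with hw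
    have hw0 : 0 ≤ w := by rw [hw]; linarith
    have h1 := hfP (-c + δ / (w + 1), -c + δ / (w + 1)) ⟨by
      have : 0 < δ / (w + 1) := by positivity
      change -c < -c + δ / (w + 1)
      linarith, by
      have : 0 < δ / (w + 1) := by positivity
      change -c < -c + δ / (w + 1)
      linarith⟩
    rw [hf] at h1
    have h2 : δ / (w + 1) * w ≤ δ := by
      rw [div_mul_eq_mul_div, div_le_iff₀ (by linarith)]
      nlinarith
    have h3 : (-c + δ / (w + 1)) * f₁ + (-c + δ / (w + 1)) * f₂ =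
      -c * (f₁ + f₂) - δ / (w + 1) * w := by rw [hw]; ring
    rw [h3] at h1
    linarith
  have hne : f₁ + f₂ < 0 := by
    rcases (add_nonpos hf₁' hf₂').lt_or_eq with h1 | h1
    · exact h1
    · exfalso
      have h2 : f₁ = 0 := by linarith
      have h3 : f₂ = 0 := by linarith
      obtain ⟨R, hR⟩ := hab ξ₀ hξ₀
      obtain ⟨l₁, hl₁⟩ := exists_lim U (a ξ₀) R fun n => (hR n).1
      obtain ⟨l₂, hl₂⟩ := exists_lim U (b ξ₀) R fun n => (hR n).2
      have h4 := hfD (l₁, l₂) ⟨ξ₀, hξ₀, hl₁, hl₂⟩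
      have h5 := hfP (-c + 1, -c + 1) ⟨by change -c < -c + 1; linarith,
        by change -c < -c + 1; linarith⟩
      rw [hf, h2, h3] at h4 h5
      linarith
  refine ⟨f₁ / (f₁ + f₂), ⟨div_nonneg_of_nonpos hf₁' hne.le, ?_⟩, ?_⟩
  · rw [div_le_one_of_neg hne]
    linarith
  · intro ξ hξ ε hε
    obtain ⟨R, hR⟩ := hab ξ hξ
    obtain ⟨l₁, hl₁⟩ := exists_lim U (a ξ) R fun n => (hR n).1
    obtain ⟨l₂, hl₂⟩ := exists_lim U (b ξ) R fun n => (hR n).2
    have h4 := hfD (l₁, l₂) ⟨ξ, hξ, hl₁, hl₂⟩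
    rw [hf] at h4
    have h5 : f₁ / (f₁ + f₂) * l₁ + (1 - f₁ / (f₁ + f₂)) * l₂ ≤ -c := by
      have h6 : f₁ / (f₁ + f₂) * l₁ + (1 - f₁ / (f₁ + f₂)) * l₂ =
          (l₁ * f₁ + l₂ * f₂) / (f₁ + f₂) := by
        have h8 := hne.ne
        field_simp
        ring
      rw [h6, div_le_iff_of_neg hne]
      linarith
    have h7 : Tendsto (fun n => f₁ / (f₁ + f₂) * a ξ n + (1 - f₁ / (f₁ + f₂)) * b ξ n) U
        (𝓝 (f₁ / (f₁ + f₂) * l₁ + (1 - f₁ / (f₁ + f₂)) * l₂)) :=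
      (hl₁.const_mul _).add (hl₂.const_mul _)
    exact (h7.eventually_lt_const (by linarith : f₁ / (f₁ + f₂) * l₁ +
      (1 - f₁ / (f₁ + f₂)) * l₂ < -c + ε)).mono fun n hn => hn.le

omit [AddCommGroup V] [Module ℝ V] in
lemma Lam_convex (C : Set V) (a b : V → ℕ → ℝ) (c : ℝ) (U : Ultrafilter ℕ) {s t r : ℝ}
    (hs : s ∈ Lam C a b c U) (ht : t ∈ Lam C a b c U) (h1 : s ≤ r) (h2 : r ≤ t) :
    r ∈ Lam C a b c U := by
  refine ⟨⟨hs.1.1.trans h1, h2.trans ht.1.2⟩, fun ξ hξ ε hε => ?_⟩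
  filter_upwards [hs.2 ξ hξ ε hε, ht.2 ξ hξ ε hε] with n hn hn'
  rcases le_total (b ξ n) (a ξ n) with h | h
  · have : r * a ξ n + (1 - r) * b ξ n ≤ t * a ξ n + (1 - t) * b ξ n := by nlinarith
    linarith
  · have : r * a ξ n + (1 - r) * b ξ n ≤ s * a ξ n + (1 - s) * b ξ n := by nlinarith
    linarith

omit [AddCommGroup V] [Module ℝ V] in
lemma Lam_closed (C : Set V) (a b : V → ℕ → ℝ) (c : ℝ)
    (hab : ∀ ξ ∈ C, ∃ R, ∀ n, |a ξ n| ≤ R ∧ |b ξ n| ≤ R) (U : Ultrafilter ℕ) :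
    IsClosed (Lam C a b c U) := by
  refine isClosed_of_closure_subset fun t ht => ?_
  rw [Metric.mem_closure_iff] at ht
  refine ⟨?_, fun ξ hξ ε hε => ?_⟩
  · have : t ∈ closure (Icc (0 : ℝ) 1) := by
      rw [Metric.mem_closure_iff]
      intro δ hδ
      obtain ⟨s, hs, hd⟩ := ht δ hδ
      exact ⟨s, hs.1, hd⟩
    rwa [isClosed_Icc.closure_eq] at this
  · obtain ⟨R, hR⟩ := hab ξ hξ
    have hR0 : 0 ≤ R := (abs_nonneg _).trans (hR 0).1
    obtain ⟨s, hs, hd⟩ := ht (ε / (4 * (R + 1))) (by positivity)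
    rw [Real.dist_eq] at hd
    filter_upwards [hs.2 ξ hξ (ε / 2) (by positivity)] with n hn
    have h1 : t * a ξ n + (1 - t) * b ξ n =
        (s * a ξ n + (1 - s) * b ξ n) + (t - s) * (a ξ n - b ξ n) := by ring
    have h2 : |(t - s) * (a ξ n - b ξ n)| ≤ ε / (4 * (R + 1)) * (2 * R) := by
      rw [abs_mul]
      refine mul_le_mul hd.le ?_ (abs_nonneg _) (by positivity)
      calc |a ξ n - b ξ n| ≤ |a ξ n| + |b ξ n| := abs_sub _ _
        _ ≤ 2 * R := by linarith [(hR n).1, (hR n).2]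
    have h3 : ε / (4 * (R + 1)) * (2 * R) ≤ ε / 2 := by
      rw [div_mul_eq_mul_div, div_le_div_iff₀ (by positivity) (by positivity)]
      nlinarith
    have h4 := le_abs_self ((t - s) * (a ξ n - b ξ n))
    rw [h1]
    linarith

/-- The key lemma. -/
theorem key (C : Set V) (hC : Convex ℝ C) (a b : V → ℕ → ℝ) (c : ℝ)
    (ha : ∀ ξ ∈ C, ∀ ζ ∈ C, ∀ s t : ℝ, 0 ≤ s → 0 ≤ t → s + t = 1 →
      ∀ n, a (s • ξ + t • ζ) n = s * a ξ n + t * a ζ n)
    (hb : ∀ ξ ∈ C, ∀ ζ ∈ C, ∀ s t : ℝ, 0 ≤ s → 0 ≤ t → s + t = 1 →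
      ∀ n, b (s • ξ + t • ζ) n = s * b ξ n + t * b ζ n)
    (hab : ∀ ξ ∈ C, ∃ R, ∀ n, |a ξ n| ≤ R ∧ |b ξ n| ≤ R)
    (h : ∀ ξ ∈ C, (∀ᶠ n in atTop, a ξ n ≤ -c) ∨ (∀ᶠ n in atTop, b ξ n ≤ -c)) :
    ∃ t ∈ Icc (0 : ℝ) 1, ∃ M : Set ℕ, M.Infinite ∧ ∀ ξ ∈ C, ∀ ε : ℝ, 0 < ε →
      {n ∈ M | -c + ε < t * a ξ n + (1 - t) * b ξ n}.Finite := by
  classical
  have hne := Lam_nonempty C hC a b c ha hb hab h
  -- the functional σ
  let S : Set ℕ → Set ℝ := fun M => {t | t ∈ Icc (0 : ℝ) 1 ∧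
    ∀ U : Ultrafilter ℕ, (U : Filter ℕ) ≤ atTop → M ∈ U → ∃ s ∈ Lam C a b c U, s ≤ t}
  have hS1 : ∀ M, (1 : ℝ) ∈ S M := by
    intro M
    refine ⟨by simp, fun U hU _ => ?_⟩
    obtain ⟨s, hs⟩ := hne U hU
    exact ⟨s, hs, hs.1.2⟩
  have hSb : ∀ M, BddBelow (S M) := fun M => ⟨0, fun t ht => ht.1.1⟩
  let σ : Set ℕ → ℝ := fun M => sInf (S M)
  have hσ0 : ∀ M, 0 ≤ σ M := fun M => le_csInf ⟨1, hS1 M⟩ fun t ht => ht.1.1
  have hσmono : ∀ M M' : Set ℕ, M.Infinite → (M \ M').Finite → σ M ≤ σ M' := by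
    intro M M' _ hfin
    refine csInf_le_csInf (hSb M) ⟨1, hS1 M'⟩ fun t ht => ⟨ht.1, fun U hU hM => ?_⟩
    refine ht.2 U hU ?_
    have h1 : (M \ M')ᶜ ∈ (U : Filter ℕ) := hU (by
      rw [← Nat.cofinite_eq_atTop]
      exact hfin.compl_mem_cofinite)
    filter_upwards [h1, hM] with n hn hn'
    by_contra hcon
    exact hn ⟨hn', hcon⟩
  obtain ⟨M, hM, hstab⟩ := stabilise σ hσ0 hσmono
  have hσ1 : σ M ≤ 1 := csInf_le (hSb M) (hS1 M)
  refine ⟨σ M, ⟨hσ0 M, hσ1⟩, M, hM, ?_⟩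
  -- main claim
  have main : ∀ U : Ultrafilter ℕ, (U : Filter ℕ) ≤ atTop → M ∈ U → σ M ∈ Lam C a b c U := by
    intro U hU hMU
    by_contra hcon
    -- there is an element of Lam below σ M
    have hcl := Lam_closed C a b c hab U
    have hbdb : BddBelow (Lam C a b c U) := ⟨0, fun t ht => ht.1.1⟩
    have hbda : BddAbove (Lam C a b c U) := ⟨1, fun t ht => ht.1.2⟩
    have hinf : sInf (Lam C a b c U) ≤ σ M := by
      refine le_csInf ⟨1, hS1 M⟩ fun t ht => ?_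
      obtain ⟨s, hs, hst⟩ := ht.2 U hU hMU
      exact (csInf_le hbdb hs).trans hst
    have hinfmem : sInf (Lam C a b c U) ∈ Lam C a b c U := hcl.csInf_mem (hne U hU) hbdb
    have hsupmem : sSup (Lam C a b c U) ∈ Lam C a b c U := hcl.csSup_mem (hne U hU) hbda
    have hsup : sSup (Lam C a b c U) < σ M := by
      by_contra hle
      push Not at hle
      exact hcon (Lam_convex C a b c U hinfmem hsupmem hinf hle)
    obtain ⟨t, ht1, ht2⟩ := exists_between hsup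
    have htIcc : t ∈ Icc (0 : ℝ) 1 :=
      ⟨hsupmem.1.1.trans ht1.le, ht2.le.trans hσ1⟩
    have htn : t ∉ Lam C a b c U := fun hmem => absurd (le_csSup hbda hmem) (not_le.2 ht1)
    -- a witness ξ
    have : ∃ ξ ∈ C, ∃ ε : ℝ, 0 < ε ∧
        {n | -c + ε < t * a ξ n + (1 - t) * b ξ n} ∈ (U : Filter ℕ) := by
      by_contra hc'
      push Not at hc'
      refine htn ⟨htIcc, fun ξ hξ ε hε => ?_⟩
      have h1 := hc' ξ hξ ε hε
      have h2 : {n | -c + ε < t * a ξ n + (1 - t) * b ξ n}ᶜ ∈ U :=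
        Ultrafilter.compl_mem_iff_notMem.2 h1
      filter_upwards [h2] with n hn
      exact not_lt.1 hn
    obtain ⟨ξ, hξ, ε, hε, hmem⟩ := this
    set s := sSup (Lam C a b c U) with hs
    -- the set on which `b ξ < a ξ`
    have hmem2 : {n | b ξ n < a ξ n} ∈ (U : Filter ℕ) := by
      filter_upwards [hmem, hsupmem.2 ξ hξ ε hε] with n hn hn'
      have hn1 : -c + ε < t * a ξ n + (1 - t) * b ξ n := hn
      by_contra hcon'
      have hcon'' : a ξ n ≤ b ξ n := not_lt.1 hcon'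
      have : t * a ξ n + (1 - t) * b ξ n ≤ s * a ξ n + (1 - s) * b ξ n := by nlinarith
      linarith
    set M' := {n | -c + ε < t * a ξ n + (1 - t) * b ξ n} ∩ {n | b ξ n < a ξ n} ∩ M with hM'
    have hM'U : M' ∈ (U : Filter ℕ) := inter_mem (inter_mem hmem hmem2) hMU
    have hM'inf : M'.Infinite := by
      intro hfin
      have : M'ᶜ ∈ (U : Filter ℕ) := hU (by
        rw [← Nat.cofinite_eq_atTop]; exact hfin.compl_mem_cofinite)
      exact Ultrafilter.compl_notMem_iff.2 hM'U this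
    have hle := hstab M' hM'inf inter_subset_right
    have hlt : σ M' ≤ t := by
      refine csInf_le (hSb M') ⟨htIcc, fun W hW hM'W => ?_⟩
      obtain ⟨r, hr⟩ := hne W hW
      refine ⟨r, hr, ?_⟩
      by_contra hrt
      push Not at hrt
      have h1 := hr.2 ξ hξ ε hε
      have h2 : ∀ᶠ n in (W : Filter ℕ), n ∈ M' := hM'W
      obtain ⟨n, hn1, hn2⟩ := (h1.and h2).exists
      have h3 : -c + ε < t * a ξ n + (1 - t) * b ξ n := hn2.1.1
      have h4 : b ξ n < a ξ n := hn2.1.2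
      have : t * a ξ n + (1 - t) * b ξ n ≤ r * a ξ n + (1 - r) * b ξ n := by nlinarith
      linarith
    linarith
  intro ξ hξ ε hε
  by_contra hinf
  have hinf' : {n ∈ M | -c + ε < σ M * a ξ n + (1 - σ M) * b ξ n}.Infinite := hinf
  set T := {n ∈ M | -c + ε < σ M * a ξ n + (1 - σ M) * b ξ n} with hT
  have hneBot : (atTop ⊓ 𝓟 T : Filter ℕ).NeBot := by
    rw [← Nat.cofinite_eq_atTop]
    exact hinf'.cofinite_inf_principal_neBot
  set U := Ultrafilter.of (atTop ⊓ 𝓟 T) with hU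
  have hUle : (U : Filter ℕ) ≤ atTop ⊓ 𝓟 T := Ultrafilter.of_le _
  have hTU : T ∈ (U : Filter ℕ) := hUle (mem_inf_of_right (mem_principal_self T))
  have hMU : M ∈ (U : Filter ℕ) := mem_of_superset hTU fun n hn => hn.1
  have h1 := (main U (hUle.trans inf_le_left) hMU).2 ξ hξ ε hε
  have h2 : ∀ᶠ n in (U : Filter ℕ), n ∈ T := hTU
  obtain ⟨n, hn1, hn2⟩ := (h1.and h2).exists
  exact absurd hn2.2 (not_lt.2 hn1)

end Pool.Agent.MP_b3c6e2_an.Diag
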